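import Pool.Agent.H38.O1.N3
import Pool.Agent.H38.O2.Close

set_option autoImplicit false

/-!
`eta = T_b⁻¹ T_(t b)`, `t = th(a, b)`, commutes with all `D_q eta D_q` (helper17, helper77).
-/

namespace ALoop

open Equiv

variable {Q : Type*} {G : Subgroup (Perm Q)} {L : Q → Perm Q} {J : Perm Q} {e : Q}

namespace AL0

/-- `s` is fixed by all `th(v, w)` iff `L_v L_s = L_(v s)` -/
theorem Nsp_iff_Th (h : AL0 G L J e) (s v : Q) :
    Nsp L s v ↔ ∀ w, Th L J v w s = s := by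
  constructor
  · intro hv w
    unfold Th
    simp only [Perm.mul_apply]
    rw [Perm.inv_eq_iff_eq, Perm.inv_eq_iff_eq, h.Rt_app, h.Rt_app,
      ← (show L v * L s = L (L v s) from hv), Perm.mul_apply]
  · intro hv
    ext w
    have h1 := hv w
    unfold Th at h1
    simp only [Perm.mul_apply] at h1
    rw [Perm.inv_eq_iff_eq, Perm.inv_eq_iff_eq, h.Rt_app, h.Rt_app] at h1
    rw [Perm.mul_apply, h1]

/-- `C_v` is closed under left division -/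
theorem Csp_ldiv (h : AL0 G L J e) {s s' v : Q} (hs : Nsp L s v) (hs' : Nsp L s' v) :
    Nsp L ((L s)⁻¹ s') v := by
  rw [h.Nsp_iff_Th] at hs hs' ⊢
  intro w
  have h1 := h.aut (h.Th_mem v w) (h.Th_e v w) s ((L s)⁻¹ s')
  rw [apply_inv', hs, hs'] at h1
  rw [eq_comm, Perm.inv_eq_iff_eq]
  exact h1

/-- right division in `N_s` -/
theorem Nsp_rdiv (h : AL0 G L J e) {s v w : Q} (hv : Nsp L s v) (hw : Nsp L s (L w v)) :
    Nsp L s w := by
  rw [h.Nsp_iff] at hv hw ⊢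
  intro y
  obtain ⟨h1, h2⟩ := h.Nsp_r s y
  have h3 := hw y
  rw [h.aut h1 h2, hv, ← h.Rt_app v, ← h.Rt_app v] at h3
  exact (Rt L J v).injective h3

/-- `th(a, b)` fixes `C_b` pointwise -/
theorem Th_fix (h : AL0 G L J e) {a b s : Q} (hs : Nsp L s b) : Th L J a b s = s := by
  have h1 := (h.Nsp_iff_Th s (J b)).1 (h.Nsp_inv hs) (J a)
  rw [h.Th_inv, Perm.inv_eq_iff_eq] at h1
  exact h1.symm

theorem Nsp_Th (h : AL0 G L J e) {a b s : Q} (hs : Nsp L s (Th L J a b b)) : Nsp L s b := by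
  have h1 := h.Nsp_inn (G.inv_mem (h.Th_mem a b))
    (by rw [Perm.inv_eq_iff_eq, h.Th_e]) hs
  rw [inv_apply'] at h1
  have h2 : Th L J a b ((Th L J a b)⁻¹ s) = (Th L J a b)⁻¹ s := h.Th_fix h1
  rw [apply_inv'] at h2
  rw [h2]; exact h1

/-- conjugates of `T_b` -/
theorem Tx_conj (h : AL0 G L J e) {g : Perm Q} (hg : g ∈ G) (hge : g e = e) (b : Q) :
    g * Tx L J b * g⁻¹ = Tx L J (g b) := by
  have h1 := h.equi g hg hge b
  have h2 := h.comJ g hg hge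
  have h3 : g (J b) = J (g b) := by
    have := congrArg (fun p : Perm Q => p b) h2
    simpa only [Perm.mul_apply] using this
  have h4 := h.equi g hg hge (J b)
  rw [h3] at h4
  have h5 : g * Rt L J b * g⁻¹ = Rt L J (g b) := by
    unfold Rt
    rw [← h4]
    calc g * (J * L (J b) * J) * g⁻¹ = (g * J) * L (J b) * (g⁻¹ * (g * J) * g⁻¹) := by group
      _ = (J * g) * L (J b) * (g⁻¹ * (J * g) * g⁻¹) := by rw [h2]
      _ = _ := by group
  unfold Tx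
  rw [← h1, ← h5]
  group

/-- the main point: `eta q = q c` with `eta c = c` and `L_q L_c = L_(q c)` -/
theorem eta_c (h : AL0 G L J e) (a b q : Q) :
    ∃ c, ((Tx L J b)⁻¹ * Tx L J (Th L J a b b)) q = L q c ∧ Nsp L c q ∧
      ((Tx L J b)⁻¹ * Tx L J (Th L J a b b)) c = c := by
  obtain ⟨t, ht⟩ : ∃ t, t = Th L J a b := ⟨_, rfl⟩
  obtain ⟨b1, hb1⟩ : ∃ b1, b1 = t b := ⟨_, rfl⟩
  obtain ⟨T, hT⟩ : ∃ T, T = Tx L J b := ⟨_, rfl⟩
  obtain ⟨T1, hT1⟩ : ∃ T1, T1 = Tx L J b1 := ⟨_, rfl⟩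
  rw [← ht, ← hb1, ← hT, ← hT1]
  obtain ⟨s, hs⟩ : ∃ s, s = (L q)⁻¹ (T q) := ⟨_, rfl⟩
  obtain ⟨s1, hs1⟩ : ∃ s1, s1 = (L q)⁻¹ (T1 q) := ⟨_, rfl⟩
  have htG : t ∈ G := by rw [ht]; exact h.Th_mem _ _
  have hte : t e = e := by rw [ht]; exact h.Th_e _ _
  have hTG : T ∈ G := by rw [hT]; exact h.Tx_mem _
  have hTe : T e = e := by rw [hT]; exact h.Tx_e _
  have hTb : T b = b := by rw [hT]; exact h.Tx_x _
  have hTiG : T⁻¹ ∈ G := G.inv_mem hTG
  have hTie : T⁻¹ e = e := by rw [Perm.inv_eq_iff_eq, hTe]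
  have hTib : T⁻¹ b = b := by rw [Perm.inv_eq_iff_eq, hTb]
  have a1 : Nsp L s q := by rw [hs, hT]; exact h.N3 b q
  have a2 : Nsp L s b := by rw [hs, hT]; exact h.N4 b q
  have a3 : Nsp L s1 q := by rw [hs1, hT1]; exact h.N3 b1 q
  have a4 : Nsp L s1 b1 := by rw [hs1, hT1]; exact h.N4 b1 q
  have a5 : Nsp L s1 b := by
    rw [hb1, ht] at a4; exact h.Nsp_Th a4
  obtain ⟨c', hc'⟩ : ∃ c', c' = (L s)⁻¹ s1 := ⟨_, rfl⟩
  have b1' : Nsp L c' q := by rw [hc']; exact h.Csp_ldiv a1 a3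
  have b2' : Nsp L c' b := by rw [hc']; exact h.Csp_ldiv a2 a5
  obtain ⟨c, hc⟩ : ∃ c, c = T⁻¹ c' := ⟨_, rfl⟩
  have c1 : Nsp L c b := by
    have := h.Nsp_inn hTiG hTie b2'
    rwa [hTib, ← hc] at this
  have c2 : Nsp L c (T⁻¹ q) := by
    have := h.Nsp_inn hTiG hTie b1'
    rwa [← hc] at this
  have hTc : T c = c' := by rw [hc, apply_inv']
  refine ⟨c, ?_, ?_, ?_⟩
  · rw [Perm.mul_apply, Perm.inv_eq_iff_eq, h.aut hTG hTe, hTc]
    have e1 : T q = L q s := by rw [hs, apply_inv']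
    have e2 : T1 q = L q s1 := by rw [hs1, apply_inv']
    rw [e1, e2, ← (show L q * L s = L (L q s) from a1), Perm.mul_apply, hc', apply_inv']
  · -- `q = T (T⁻¹ q)` lies in the subloop `N_c`
    have d1 : q = L b ((Rt L J b)⁻¹ (T⁻¹ q)) := by
      have : L b ((Rt L J b)⁻¹ (T⁻¹ q)) = T (T⁻¹ q) := by rw [hT]; unfold Tx; rw [Perm.mul_apply]
      rw [this, apply_inv']
    have d2 : L ((Rt L J b)⁻¹ (T⁻¹ q)) b = T⁻¹ q := by rw [← h.Rt_app, apply_inv']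
    have d3 : Nsp L c ((Rt L J b)⁻¹ (T⁻¹ q)) := by
      apply h.Nsp_rdiv c1
      rw [d2]; exact c2
    rw [d1]
    exact h.Nsp_mul c1 d3
  · -- `eta c = T⁻¹ t T t⁻¹ c`
    have f1 : T1 = t * T * t⁻¹ := by
      rw [hT1, hb1, hT, h.Tx_conj htG hte]
    have f2 : t⁻¹ c = c := by
      rw [Perm.inv_eq_iff_eq, ht, h.Th_fix c1]
    have f3 : t c' = c' := by rw [ht, h.Th_fix b2']
    rw [f1]
    simp only [Perm.mul_apply]
    rw [f2, hTc, f3, hc]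

/-- `eta = T_b⁻¹ T_(th(a,b) b)` commutes with `D_q eta D_q` -/
theorem eta_D (h : AL0 G L J e) (a b q : Q) {eta : Perm Q}
    (heta : eta = (Tx L J b)⁻¹ * Tx L J (Th L J a b b)) :
    eta * ((L q * J * (L q)⁻¹) * eta * (L q * J * (L q)⁻¹)) =
      ((L q * J * (L q)⁻¹) * eta * (L q * J * (L q)⁻¹)) * eta := by
  obtain ⟨c, hc1, hc2, hc3⟩ := h.eta_c a b q
  rw [← heta] at hc1 hc3
  have hG : eta ∈ G := by rw [heta]; exact G.mul_mem (G.inv_mem (h.Tx_mem _)) (h.Tx_mem _)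
  have he : eta e = e := by
    rw [heta, Perm.mul_apply, h.Tx_e, Perm.inv_eq_iff_eq, h.Tx_e]
  have hJ := h.comJ eta hG he
  obtain ⟨D, hD⟩ : ∃ D, D = L q * J * (L q)⁻¹ := ⟨_, rfl⟩
  rw [← hD]
  have hDD : D * D = 1 := by
    rw [hD]
    calc L q * J * (L q)⁻¹ * (L q * J * (L q)⁻¹) = L q * (J * J) * (L q)⁻¹ := by group
      _ = 1 := by rw [h.JJ1]; group
  -- `eta D eta⁻¹ = D_(eta q)`
  have h1 : eta * L q * eta⁻¹ = L q * L c := by
    rw [h.equi eta hG he, hc1]; exact (show L q * L c = L (L q c) from hc2).symm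
  have h2 : eta * L c * eta⁻¹ = L c := by
    rw [h.equi eta hG he, hc3]
  obtain ⟨P, hP⟩ : ∃ P, P = L c * J * (L c)⁻¹ * J := ⟨_, rfl⟩
  have hJi : J⁻¹ = J := h.Jinv
  have hPL : L c * P = P * L c := by
    -- `P = L_c R_(c⁻¹)⁻¹`
    have k1 : P = L c * (Rt L J (J c))⁻¹ := by
      rw [hP, ← h.JLJ c, mul_inv_rev, mul_inv_rev, hJi]; group
    have k2 := h.LRJ c
    rw [k1]
    calc L c * (L c * (Rt L J (J c))⁻¹) =
        L c * ((Rt L J (J c))⁻¹ * (Rt L J (J c) * L c) * (Rt L J (J c))⁻¹) := by group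
      _ = L c * ((Rt L J (J c))⁻¹ * (L c * Rt L J (J c)) * (Rt L J (J c))⁻¹) := by rw [k2]
      _ = L c * (Rt L J (J c))⁻¹ * L c := by group
  have h3 : eta * P * eta⁻¹ = P := by
    rw [hP]
    calc eta * (L c * J * (L c)⁻¹ * J) * eta⁻¹ =
        (eta * L c * eta⁻¹) * ((eta * J) * eta⁻¹) * (eta * L c * eta⁻¹)⁻¹ * ((eta * J) * eta⁻¹) := by
          group
      _ = L c * ((J * eta) * eta⁻¹) * (L c)⁻¹ * ((J * eta) * eta⁻¹) := by rw [h2, hJ]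
      _ = _ := by group
  have h4 : eta * D * eta⁻¹ = L q * L c * J * (L c)⁻¹ * (L q)⁻¹ := by
    rw [hD]
    calc eta * (L q * J * (L q)⁻¹) * eta⁻¹ =
        (eta * L q * eta⁻¹) * ((eta * J) * eta⁻¹) * (eta * L q * eta⁻¹)⁻¹ := by group
      _ = (L q * L c) * ((J * eta) * eta⁻¹) * (L q * L c)⁻¹ := by rw [h1, hJ]
      _ = _ := by group
  have h5 : eta * D * eta⁻¹ * D = L q * P * (L q)⁻¹ := by
    rw [h4, hD, hP]
    group
  have h6 : eta * (L q * P * (L q)⁻¹) * eta⁻¹ = L q * P * (L q)⁻¹ := by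
    calc eta * (L q * P * (L q)⁻¹) * eta⁻¹ =
        (eta * L q * eta⁻¹) * (eta * P * eta⁻¹) * (eta * L q * eta⁻¹)⁻¹ := by group
      _ = (L q * L c) * P * (L q * L c)⁻¹ := by rw [h1, h3]
      _ = L q * (L c * P) * (L c)⁻¹ * (L q)⁻¹ := by group
      _ = L q * (P * L c) * (L c)⁻¹ * (L q)⁻¹ := by rw [hPL]
      _ = _ := by group
  -- so `eta` commutes with `D eta⁻¹ D`
  have h7 : eta * (D * eta⁻¹ * D) * eta⁻¹ = D * eta⁻¹ * D := by
    rw [← h5] at h6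
    have h8 : eta * (D * eta⁻¹ * D) * eta⁻¹ = eta⁻¹ * (eta * (eta * D * eta⁻¹ * D) * eta⁻¹) := by
      group
    rw [h8, h6]; group
  have hDi : D⁻¹ = D := inv_eq_of_mul_eq_one_left hDD
  have h9 : eta * (D * eta * D)⁻¹ = (D * eta * D)⁻¹ * eta := by
    have h10 : (D * eta * D)⁻¹ = D * eta⁻¹ * D := by
      rw [mul_inv_rev, mul_inv_rev, hDi]; group
    rw [h10]
    calc eta * (D * eta⁻¹ * D) = (eta * (D * eta⁻¹ * D) * eta⁻¹) * eta := by group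
      _ = _ := by rw [h7]
  have h10 : Commute eta (D * eta * D)⁻¹ := h9
  exact (Commute.inv_right_iff.1 h10).eq

end AL0

end ALoop
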