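import Pool.Agent.H54.O1.Eta
import Pool.Agent.H38.O2.Main

set_option autoImplicit false

/-!
K7: in a finite simple nonassociative automorphic loop of odd order `th(a, b)` fixes `b` and `a`
(helpers 93, 77, 17, 79, 83).
-/

namespace ALoop

open Equiv

/-- helper79's trick -/
theorem trick {M : Type*} [Group M] {l r l' r' : M} (h1 : l * r = r * l) (h2 : l * l' = l' * l)
    (h3 : r * r' = r' * r) (h4 : l' * r' = r' * l')
    (h5 : (l * r) * (l' * r') = (l' * r') * (l * r)) :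
    (l * r⁻¹) * (l' * r'⁻¹) = (l' * r'⁻¹) * (l * r⁻¹) := by
  have c1 : Commute l r := h1
  have c2 : Commute l l' := h2
  have c3 : Commute r r' := h3
  have c4 : Commute l' r' := h4
  obtain ⟨c, hc⟩ : ∃ c, c = r * l' * r⁻¹ * l'⁻¹ := ⟨_, rfl⟩
  obtain ⟨d, hd⟩ : ∃ d, d = r' * l * r'⁻¹ * l⁻¹ := ⟨_, rfl⟩
  have e1 : r * l' = c * l' * r := by rw [hc]; group
  have e2 : r' * l = d * l * r' := by rw [hd]; group
  have lc : Commute l c := by
    rw [hc]
    exact ((c1.mul_right c2).mul_right c1.inv_right).mul_right c2.inv_right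
  have l'd : Commute l' d := by
    rw [hd]
    exact ((c4.mul_right c2.symm).mul_right c4.inv_right).mul_right c2.symm.inv_right
  have hcd : c = d := by
    have k1 : l * c * l' * (r' * r) = l' * d * l * (r' * r) := by
      calc l * c * l' * (r' * r) = l * (c * l') * (r' * r) := by group
        _ = l * (c * l') * (r * r') := by rw [c3.eq]
        _ = l * (c * l' * r) * r' := by group
        _ = l * (r * l') * r' := by rw [e1]
        _ = (l * r) * (l' * r') := by group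
        _ = (l' * r') * (l * r) := h5
        _ = l' * (r' * l) * r := by group
        _ = l' * (d * l * r') * r := by rw [e2]
        _ = _ := by group
    have k2 : l * c * l' = l' * d * l := mul_right_cancel k1
    have k3 : c * (l * l') = d * (l * l') := by
      calc c * (l * l') = (c * l) * l' := by group
        _ = (l * c) * l' := by rw [lc.eq]
        _ = l' * d * l := k2
        _ = (d * l') * l := by rw [l'd.eq]
        _ = d * (l' * l) := by group
        _ = _ := by rw [c2.eq]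
    exact mul_right_cancel k3
  have rd : Commute r d := by
    rw [hd]
    exact ((c3.mul_right c1.symm).mul_right c3.inv_right).mul_right c1.symm.inv_right
  have r'c : Commute r' c := by
    rw [hc]
    exact ((c3.symm.mul_right c4.symm).mul_right c3.symm.inv_right).mul_right c4.symm.inv_right
  have rc : Commute r c := by rw [hcd]; exact rd
  -- `r⁻¹ l' = c⁻¹ l' r⁻¹`
  have f1 : r⁻¹ * l' = c⁻¹ * l' * r⁻¹ := by
    have : c * (r⁻¹ * l') = l' * r⁻¹ := by
      calc c * (r⁻¹ * l') = (c * r⁻¹) * l' := by group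
        _ = (r⁻¹ * c) * l' := by rw [rc.symm.inv_right.eq]
        _ = r⁻¹ * (c * l' * r) * r⁻¹ := by group
        _ = r⁻¹ * (r * l') * r⁻¹ := by rw [e1]
        _ = _ := by group
    calc r⁻¹ * l' = c⁻¹ * (c * (r⁻¹ * l')) := by group
      _ = _ := by rw [this]; group
  have f2 : r'⁻¹ * l = c⁻¹ * l * r'⁻¹ := by
    have : c * (r'⁻¹ * l) = l * r'⁻¹ := by
      calc c * (r'⁻¹ * l) = (c * r'⁻¹) * l := by group
        _ = (r'⁻¹ * c) * l := by rw [r'c.symm.inv_right.eq]
        _ = r'⁻¹ * (c * l * r') * r'⁻¹ := by group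
        _ = r'⁻¹ * (d * l * r') * r'⁻¹ := by rw [hcd]
        _ = r'⁻¹ * (r' * l) * r'⁻¹ := by rw [e2]
        _ = _ := by group
    calc r'⁻¹ * l = c⁻¹ * (c * (r'⁻¹ * l)) := by group
      _ = _ := by rw [this]; group
  have l'c : Commute l' c := by rw [hcd]; exact l'd
  calc (l * r⁻¹) * (l' * r'⁻¹) = l * (r⁻¹ * l') * r'⁻¹ := by group
    _ = l * (c⁻¹ * l' * r⁻¹) * r'⁻¹ := by rw [f1]
    _ = (l * c⁻¹) * l' * (r⁻¹ * r'⁻¹) := by group
    _ = (c⁻¹ * l) * l' * (r⁻¹ * r'⁻¹) := by rw [lc.inv_right.eq]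
    _ = c⁻¹ * (l * l') * (r⁻¹ * r'⁻¹) := by group
    _ = c⁻¹ * (l' * l) * (r'⁻¹ * r⁻¹) := by rw [c2.eq, c3.inv_inv.eq]
    _ = (c⁻¹ * l') * l * r'⁻¹ * r⁻¹ := by group
    _ = (l' * c⁻¹) * l * r'⁻¹ * r⁻¹ := by rw [l'c.inv_right.eq]
    _ = l' * (c⁻¹ * l * r'⁻¹) * r⁻¹ := by group
    _ = l' * (r'⁻¹ * l) * r⁻¹ := by rw [f2]
    _ = _ := by group

variable {Q : Type*} {G : Subgroup (Perm Q)} {L : Q → Perm Q} {J : Perm Q} {e : Q}

namespace AL0

/-- step (1): `z = L_b⁻¹ t L_b` and `y = J z J` commute, with product `T_b⁻¹ t T_b t` -/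
theorem yz (h : AL0 G L J e) (a b : Q) {t t1 z y : Perm Q} (ht : t = Th L J a b)
    (ht1 : t1 = (Tx L J b)⁻¹ * t * Tx L J b) (hz : z = (L b)⁻¹ * t * L b) (hy : y = J * z * J) :
    y * z = t1 * t ∧ z * y = t1 * t ∧
      (L a)⁻¹ * (Rt L J b * Rt L J (J b)) * L a = (Rt L J b * Rt L J (J b)) * (z * t⁻¹) := by
  have hJJ := h.JJ1
  have htJ : t * J = J * t := by rw [ht]; exact h.Th_J a b
  have hth : t = (L a)⁻¹ * (Rt L J b)⁻¹ * L a * Rt L J b := ht
  have hRb : (L a)⁻¹ * Rt L J b * L a = Rt L J b * t⁻¹ := by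
    rw [hth]; group
  have hk1 := h.K1 a b
  have hRb' : (L a)⁻¹ * Rt L J (J b) * L a = Rt L J (J b) * t1 := by
    have h1 : (Th L J a (J b))⁻¹ = t1 := by
      rw [ht1, ht]
      calc (Th L J a (J b))⁻¹ = (Tx L J b)⁻¹ * (Tx L J b * (Th L J a (J b))⁻¹) := by group
        _ = _ := by rw [hk1]; group
    rw [← h1]
    unfold Th
    group
  have hyy : y = (Rt L J (J b))⁻¹ * t * Rt L J (J b) := by
    have h1 : (Rt L J (J b))⁻¹ = J * (L b)⁻¹ * J := by
      rw [← h.JLJ b, mul_inv_rev, mul_inv_rev, h.Jinv]; group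
    rw [hy, hz, h1, ← h.JLJ b]
    calc J * ((L b)⁻¹ * t * L b) * J = J * (L b)⁻¹ * t * 1 * L b * J := by group
      _ = J * (L b)⁻¹ * t * (J * J) * L b * J := by rw [hJJ]
      _ = J * (L b)⁻¹ * (t * J) * (J * L b * J) := by group
      _ = J * (L b)⁻¹ * (J * t) * (J * L b * J) := by rw [htJ]
      _ = _ := by group
  have h2 : t1 * Rt L J b = Rt L J b * z := by
    have h3 : Tx L J b * Rt L J b = L b := (h.L_eq b).symm
    have h4 : (Tx L J b)⁻¹ = Rt L J b * (L b)⁻¹ := by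
      unfold Tx; group
    rw [ht1, hz]
    calc (Tx L J b)⁻¹ * t * Tx L J b * Rt L J b =
        (Tx L J b)⁻¹ * t * (Tx L J b * Rt L J b) := by group
      _ = _ := by rw [h3, h4]; group
  have h3 : t⁻¹ * Rt L J (J b) = Rt L J (J b) * y⁻¹ := by rw [hyy]; group
  have h4 := h.RRJ b
  have h5 : (L a)⁻¹ * (Rt L J b * Rt L J (J b)) * L a =
      (Rt L J b * Rt L J (J b)) * (y⁻¹ * t1) := by
    calc (L a)⁻¹ * (Rt L J b * Rt L J (J b)) * L a =
        ((L a)⁻¹ * Rt L J b * L a) * ((L a)⁻¹ * Rt L J (J b) * L a) := by group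
      _ = (Rt L J b * t⁻¹) * (Rt L J (J b) * t1) := by rw [hRb, hRb']
      _ = Rt L J b * (t⁻¹ * Rt L J (J b)) * t1 := by group
      _ = _ := by rw [h3]; group
  have h6 : (L a)⁻¹ * (Rt L J b * Rt L J (J b)) * L a =
      (Rt L J b * Rt L J (J b)) * (z * t⁻¹) := by
    calc (L a)⁻¹ * (Rt L J b * Rt L J (J b)) * L a =
        (L a)⁻¹ * (Rt L J (J b) * Rt L J b) * L a := by rw [h4]
      _ = ((L a)⁻¹ * Rt L J (J b) * L a) * ((L a)⁻¹ * Rt L J b * L a) := by group
      _ = (Rt L J (J b) * t1) * (Rt L J b * t⁻¹) := by rw [hRb, hRb']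
      _ = Rt L J (J b) * (t1 * Rt L J b) * t⁻¹ := by group
      _ = (Rt L J (J b) * Rt L J b) * (z * t⁻¹) := by rw [h2]; group
      _ = _ := by rw [h4]
  have h7 : y⁻¹ * t1 = z * t⁻¹ := by
    rw [h5] at h6
    exact mul_left_cancel h6
  have h8 : y * z = t1 * t := by
    calc y * z = y * (z * t⁻¹) * t := by group
      _ = y * (y⁻¹ * t1) * t := by rw [h7]
      _ = _ := by group
  refine ⟨h8, ?_, h6⟩
  have t1J : t1 * J = J * t1 := by
    apply h.comJ
    · rw [ht1, ht]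
      exact G.mul_mem (G.mul_mem (G.inv_mem (h.Tx_mem _)) (h.Th_mem _ _)) (h.Tx_mem _)
    · rw [ht1, ht]
      simp only [Perm.mul_apply]
      rw [h.Tx_e, h.Th_e, Perm.inv_eq_iff_eq, h.Tx_e]
  have hJy : J * y * J = z := by
    rw [hy]
    calc J * (J * z * J) * J = (J * J) * z * (J * J) := by group
      _ = z := by rw [hJJ]; group
  calc z * y = (J * y * J) * (J * z * J) := by rw [hJy, ← hy]
    _ = J * y * (J * J) * z * J := by group
    _ = J * (y * z) * J := by rw [hJJ]; group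
    _ = J * (t1 * t) * J := by rw [h8]
    _ = J * t1 * (t * J) := by group
    _ = J * t1 * (J * t) := by rw [htJ]
    _ = J * (t1 * J) * t := by group
    _ = (J * J) * t1 * t := by rw [t1J]; group
    _ = _ := by rw [hJJ]; group

/-- `a(x, y) = L_(x y)⁻¹ L_x L_y` is an inner mapping which fixes `x` -/
theorem axy (h : AL0 G L J e) (x y : Q) : (L (L x y))⁻¹ * L x * L y ∈ G ∧
    ((L (L x y))⁻¹ * L x * L y) e = e ∧ ((L (L x y))⁻¹ * L x * L y) x = x := by
  refine ⟨G.mul_mem (G.mul_mem (G.inv_mem (h.memL _)) (h.memL _)) (h.memL _), ?_, ?_⟩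
  · simp only [Perm.mul_apply]
    rw [h.Le, Perm.inv_eq_iff_eq, h.Le]
  · simp only [Perm.mul_apply]
    rw [h.flex', Perm.inv_eq_iff_eq]

/-- the data of K7 -/
theorem K7_data (h : AL0 G L J e) (a b : Q) {t l r : Perm Q} {u : Q} (ht : t = Th L J a b)
    (hu : u = (L b)⁻¹ (t b)) (hl : l = (L b)⁻¹ * L (t b)) (hr : r = J * l * J) :
    t u = u ∧ t * l = l * t ∧ l * r = r * l ∧ l * r⁻¹ = (L u * J * (L u)⁻¹) * J ∧
      l * r = (Tx L J b)⁻¹ * Tx L J (t b) ∧ (L b)⁻¹ * t * L b = l * t := by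
  have hJJ := h.JJ1
  obtain ⟨t1, ht1⟩ : ∃ t1, t1 = (Tx L J b)⁻¹ * t * Tx L J b := ⟨_, rfl⟩
  obtain ⟨z, hz⟩ : ∃ z, z = (L b)⁻¹ * t * L b := ⟨_, rfl⟩
  obtain ⟨y, hy⟩ : ∃ y, y = J * z * J := ⟨_, rfl⟩
  obtain ⟨hyz, hzy, hmu⟩ := h.yz a b ht ht1 hz hy
  have htG : t ∈ G := by rw [ht]; exact h.Th_mem _ _
  have hte : t e = e := by rw [ht]; exact h.Th_e _ _
  have htJ : t * J = J * t := h.comJ t htG hte
  have htb : t * L b * t⁻¹ = L (t b) := h.equi t htG hte b
  have hlz : l = z * t⁻¹ := by rw [hl, ← htb, hz]; group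
  obtain ⟨mu, hmu'⟩ : ∃ mu, mu = Rt L J b * Rt L J (J b) := ⟨_, rfl⟩
  rw [← hmu', ← hlz] at hmu
  have hmG : mu ∈ G := by rw [hmu']; exact G.mul_mem (h.memR _) (h.memR _)
  have hme : mu e = e := by rw [hmu', Perm.mul_apply, h.Rt_e, h.Rt_app, h.JL]
  have hmiG : mu⁻¹ ∈ G := G.inv_mem hmG
  have hmie : mu⁻¹ e = e := by rw [Perm.inv_eq_iff_eq, hme]
  obtain ⟨a', ha'⟩ : ∃ a', a' = mu⁻¹ a := ⟨_, rfl⟩
  have hl2 : l = (L a')⁻¹ * L a := by
    have h1 := h.equi mu⁻¹ hmiG hmie a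
    rw [inv_inv, ← ha'] at h1
    rw [← h1]
    calc l = mu⁻¹ * (mu * l) := by group
      _ = mu⁻¹ * ((L a)⁻¹ * mu * L a) := by rw [hmu]
      _ = _ := by group
  have hbu : L b u = t b := by rw [hu, apply_inv']
  have hle : l e = u := by rw [hl, Perm.mul_apply, h.Le, hu]
  have hau : L a' u = a := by
    rw [← hle, hl2, Perm.mul_apply, h.Le, apply_inv']
  obtain ⟨g, hg⟩ : ∃ g, g = l⁻¹ * L u := ⟨_, rfl⟩
  have hg1 : g = (L (L b u))⁻¹ * L b * L u := by rw [hg, hl, hbu]; group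
  have hg2 : g = (L (L a' u))⁻¹ * L a' * L u := by rw [hg, hl2, hau]; group
  have hgG : g ∈ G := by rw [hg1]; exact (h.axy b u).1
  have hge : g e = e := by rw [hg1]; exact (h.axy b u).2.1
  have hgb : g b = b := by rw [hg1]; exact (h.axy b u).2.2
  have hga' : g a' = a' := by rw [hg2]; exact (h.axy a' u).2.2
  have cgRb : Commute g (Rt L J b) := h.comR hgG hge hgb
  have cgRb' : Commute g (Rt L J (J b)) := h.comR hgG hge (h.fixJ hgG hge hgb)
  have cgLb : Commute g (L b) := h.comL hgG hge hgb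
  have cgm : Commute g mu := by rw [hmu']; exact cgRb.mul_right cgRb'
  have hma' : mu a' = a := by rw [ha', apply_inv']
  have hga : g a = a := by
    have h1 := congrArg (fun f : Perm Q => f a') cgm.eq
    simp only [Perm.mul_apply] at h1
    rw [hma', hga', hma'] at h1
    exact h1
  have cgLa : Commute g (L a) := h.comL hgG hge hga
  have cgt : Commute g t := by
    rw [ht]
    exact ((cgLa.inv_right.mul_right cgRb.inv_right).mul_right cgLa).mul_right cgRb
  have hgtb : g (t b) = t b := by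
    have h1 := congrArg (fun f : Perm Q => f b) cgt.eq
    simp only [Perm.mul_apply] at h1
    rw [hgb] at h1
    exact h1
  have hgu : g u = u := by
    have h1 := congrArg (fun f : Perm Q => f u) cgLb.eq
    simp only [Perm.mul_apply] at h1
    rw [hbu, hgtb, ← hbu] at h1
    exact ((L b).injective h1).symm
  have cgLu : Commute g (L u) := h.comL hgG hge hgu
  have cgJ : Commute g J := h.comJ g hgG hge
  have hl3 : l = L u * g⁻¹ := by rw [hg]; group
  have hz2 : z = L u * g⁻¹ * t := by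
    calc z = (z * t⁻¹) * t := by group
      _ = l * t := by rw [hlz]
      _ = _ := by rw [hl3]
  have ctJ : Commute t J := htJ
  have hy2 : y = Rt L J (J u) * g⁻¹ * t := by
    rw [hy, hz2, ← h.JLJ u]
    have h1 : g⁻¹ * t * J = J * (g⁻¹ * t) := (cgJ.inv_left.mul_left ctJ).eq
    calc J * (L u * g⁻¹ * t) * J = J * L u * (g⁻¹ * t * J) := by group
      _ = J * L u * (J * (g⁻¹ * t)) := by rw [h1]
      _ = _ := by group
  have htu : t u = u := by
    have h1 := congrArg (fun f : Perm Q => f e) hyz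
    simp only [Perm.mul_apply] at h1
    have h2 : z e = u := by
      rw [hz2]
      simp only [Perm.mul_apply]
      rw [hte, (Perm.inv_eq_iff_eq.2 hge.symm : g⁻¹ e = e), h.Le]
    have h3 : t1 (t e) = e := by
      rw [hte, ht1]
      simp only [Perm.mul_apply]
      rw [h.Tx_e, hte, Perm.inv_eq_iff_eq, h.Tx_e]
    have h4 : g⁻¹ (t u) = t u := by
      have h5 := congrArg (fun f : Perm Q => f u) cgt.eq
      simp only [Perm.mul_apply] at h5
      rw [hgu] at h5
      rw [Perm.inv_eq_iff_eq, h5]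
    rw [h2, h3, hy2] at h1
    simp only [Perm.mul_apply] at h1
    rw [h4] at h1
    have h6 : Rt L J (J u) u = e := by rw [h.Rt_app, h.LJ]
    exact (Rt L J (J u)).injective (h1.trans h6.symm)
  have ctLu : Commute t (L u) := h.comL htG hte htu
  have ctl : Commute t l := by
    rw [hl3]
    exact ctLu.mul_right cgt.symm.inv_right
  have ctz : Commute t z := by
    rw [hz2, ← hl3]
    exact ctl.mul_right (Commute.refl t)
  have hr2 : r = y * t⁻¹ := by
    rw [hr, hlz, hy]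
    calc J * (z * t⁻¹) * J = J * z * (t⁻¹ * J) := by group
      _ = J * z * (J * t⁻¹) := by rw [ctJ.inv_left.eq]
      _ = _ := by group
  have cty : Commute t y := by
    rw [hy]
    exact (ctJ.mul_right ctz).mul_right ctJ
  have czy : Commute z y := by
    change z * y = y * z
    rw [hzy, hyz]
  have clr : Commute l r := by
    rw [hlz, hr2]
    exact (czy.mul_right ctz.symm.inv_right).mul_left
      (cty.inv_left.mul_right (Commute.refl t).inv_inv)
  refine ⟨htu, ctl.eq, clr.eq, ?_, ?_, ?_⟩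
  · have h1 : (Rt L J (J u))⁻¹ = J * (L u)⁻¹ * J := by
      rw [← h.JLJ u, mul_inv_rev, mul_inv_rev, h.Jinv]; group
    have h2 : l * r⁻¹ = z * y⁻¹ := by rw [hlz, hr2]; group
    rw [h2, hz2, hy2]
    calc L u * g⁻¹ * t * (Rt L J (J u) * g⁻¹ * t)⁻¹ = L u * (Rt L J (J u))⁻¹ := by group
      _ = _ := by rw [h1]; group
  · have h1 : l * r = z * y * t⁻¹ * t⁻¹ := by
      rw [hlz, hr2]
      calc z * t⁻¹ * (y * t⁻¹) = z * (t⁻¹ * y) * t⁻¹ := by group
        _ = z * (y * t⁻¹) * t⁻¹ := by rw [cty.inv_left.eq]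
        _ = _ := by group
    rw [h1, hzy, ht1, ← h.Tx_conj htG hte b]
    group
  · rw [← hz, hlz]; group

/-- the homomorphism argument: `l` commutes with all `D_x l D_x` -/
theorem K7_line (h : AL0 G L J e) (a b x : Q) {t l : Perm Q} (ht : t = Th L J a b)
    (hl : l = (L b)⁻¹ * L (t b)) :
    l * (D L J x * l * D L J x) = (D L J x * l * D L J x) * l := by
  obtain ⟨u, hu⟩ : ∃ u, u = (L b)⁻¹ (t b) := ⟨_, rfl⟩
  obtain ⟨r, hr⟩ : ∃ r, r = J * l * J := ⟨_, rfl⟩
  obtain ⟨-, htl, hlr, -, -, hz⟩ := h.K7_data a b ht hu hl hr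
  have hJJ := h.JJ1
  have htG : t ∈ G := by rw [ht]; exact h.Th_mem _ _
  have hte : t e = e := by rw [ht]; exact h.Th_e _ _
  have htb : t * L b * t⁻¹ = L (t b) := h.equi t htG hte b
  have ctl : Commute t l := htl
  have clr : Commute l r := hlr
  -- `L_(t b) = L_b l`, `L_(t² b) = L_b l²`
  have e1 : L (t b) = L b * l := by rw [hl]; group
  have e2 : L (t (t b)) = L b * (l * l) := by
    have h1 := h.equi t htG hte (t b)
    rw [← h1, e1]
    have h2 : t * L b = L b * (l * t) := by rw [← hz]; group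
    calc t * (L b * l) * t⁻¹ = (t * L b) * l * t⁻¹ := by group
      _ = (L b * (l * t)) * l * t⁻¹ := by rw [h2]
      _ = L b * l * (t * l) * t⁻¹ := by group
      _ = L b * l * (l * t) * t⁻¹ := by rw [htl]
      _ = _ := by group
  obtain ⟨D0, hD0⟩ : ∃ D0, D0 = D L J x := ⟨_, rfl⟩
  rw [← hD0]
  have hDD : D0 * D0 = 1 := by
    rw [hD0]; unfold D
    calc L x * J * (L x)⁻¹ * (L x * J * (L x)⁻¹) = L x * (J * J) * (L x)⁻¹ := by group
      _ = 1 := by rw [hJJ]; group
  obtain ⟨P, hP⟩ : ∃ P, P = l * r⁻¹ := ⟨_, rfl⟩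
  obtain ⟨c, hc⟩ : ∃ c, c = ((L b)⁻¹ * Rt L J x * L b) * P * ((L b)⁻¹ * Rt L J x * L b)⁻¹ :=
    ⟨_, rfl⟩
  -- `D_v` for `v = L_b (l^j e)` in two ways
  have key : ∀ (v : Q) (k : Perm Q), L v = L b * k →
      k * D0 * k⁻¹ * D0 = ((L b)⁻¹ * Rt L J x * L b) * (k * J * k⁻¹ * J) *
        ((L b)⁻¹ * Rt L J x * L b)⁻¹ := by
    intro v k hv
    have d1 : D L J v = L b * k * J * k⁻¹ * (L b)⁻¹ := by
      unfold D; rw [hv]; group
    have d2 := h.D_conj (h.le_H (h.memR x)) v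
    have d3 := h.D_conj (h.le_H (h.memL v)) x
    have d4 := h.D_conj (h.le_H (h.memR x)) b
    have d5 := h.D_conj (h.le_H (h.memL b)) x
    rw [h.Rt_app, ← d3, d1, hv, ← hD0] at d2
    rw [h.Rt_app, ← d5, ← hD0] at d4
    -- d2 : R (L_b k J k⁻¹ L_b⁻¹) R⁻¹ = L_b k D0 k⁻¹ L_b⁻¹, d4 : R D_b R⁻¹ = L_b D0 L_b⁻¹
    have d6 : D L J b = L b * J * (L b)⁻¹ := rfl
    rw [d6] at d4
    calc k * D0 * k⁻¹ * D0 = (L b)⁻¹ * (L b * k * D0 * (L b * k)⁻¹) * (L b * D0 * (L b)⁻¹) * L b := by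
          group
      _ = (L b)⁻¹ * (Rt L J x * (L b * k * J * k⁻¹ * (L b)⁻¹) * (Rt L J x)⁻¹) *
            (Rt L J x * (L b * J * (L b)⁻¹) * (Rt L J x)⁻¹) * L b := by rw [← d2, ← d4]
      _ = _ := by group
  have hJl : J * l⁻¹ * J = r⁻¹ := by
    rw [hr, mul_inv_rev, mul_inv_rev, h.Jinv]; group
  have k1 := key (t b) l e1
  have k2 := key (t (t b)) (l * l) e2
  have p1 : l * J * l⁻¹ * J = P := by
    rw [hP, ← hJl]; group
  have p2 : l * l * J * (l * l)⁻¹ * J = P * P := by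
    have c1 : Commute l P := by rw [hP]; exact (Commute.refl l).mul_right clr.inv_right
    calc l * l * J * (l * l)⁻¹ * J = l * l * (J * l⁻¹ * (1 * l⁻¹) * J) := by group
      _ = l * l * (J * l⁻¹ * (J * J * l⁻¹) * J) := by rw [hJJ]
      _ = l * l * ((J * l⁻¹ * J) * (J * l⁻¹ * J)) := by group
      _ = l * (l * r⁻¹) * r⁻¹ := by rw [hJl]; group
      _ = (l * P) * r⁻¹ := by rw [hP]
      _ = (P * l) * r⁻¹ := by rw [c1.eq]
      _ = P * (l * r⁻¹) := by group
      _ = _ := by rw [← hP]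
  rw [p1, ← hc] at k1
  have k2' : l * l * D0 * (l * l)⁻¹ * D0 = c * c := by
    rw [k2, p2, hc]; group
  rw [← k1] at k2'
  -- `l² D l⁻² D = (l D l⁻¹ D)²`
  have hDi : D0⁻¹ = D0 := inv_eq_of_mul_eq_one_left hDD
  have k3 : l * (D0 * l⁻¹ * D0) = (D0 * l⁻¹ * D0) * l := by
    have m1 : l * D0 * l⁻¹ = D0 * l⁻¹ * D0 * l * D0 := by
      have m2 : l * (l * D0 * l⁻¹) * (l⁻¹ * D0) = l * (D0 * l⁻¹ * D0 * l * D0) * (l⁻¹ * D0) := by
        calc l * (l * D0 * l⁻¹) * (l⁻¹ * D0) = l * l * D0 * (l * l)⁻¹ * D0 := by group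
          _ = l * D0 * l⁻¹ * D0 * (l * D0 * l⁻¹ * D0) := k2'
          _ = _ := by group
      exact mul_left_cancel (mul_right_cancel m2)
    calc l * (D0 * l⁻¹ * D0) = (l * D0 * l⁻¹) * D0 := by group
      _ = (D0 * l⁻¹ * D0 * l * D0) * D0 := by rw [m1]
      _ = D0 * l⁻¹ * D0 * l * (D0 * D0) := by group
      _ = _ := by rw [hDD, mul_one]
  have h9 : (D0 * l * D0)⁻¹ = D0 * l⁻¹ * D0 := by
    rw [mul_inv_rev, mul_inv_rev, hDi]; group
  have h10 : Commute l (D0 * l * D0)⁻¹ := by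
    change l * (D0 * l * D0)⁻¹ = (D0 * l * D0)⁻¹ * l
    rw [h9]; exact k3
  exact (Commute.inv_right_iff.1 h10).eq

end AL0

namespace AL

/-- K7: in a finite simple nonassociative automorphic loop of odd order `th(a, b)` fixes `b` -/
theorem K7 [Finite Q] (h : AL G L J e) (hna : ¬ Assoc L) (hfix : ∀ x, J x = x → x = e)
    (a b : Q) : Th L J a b b = b := by
  obtain ⟨t, ht⟩ : ∃ t, t = Th L J a b := ⟨_, rfl⟩
  obtain ⟨u, hu⟩ : ∃ u, u = (L b)⁻¹ (t b) := ⟨_, rfl⟩
  obtain ⟨l, hl⟩ : ∃ l, l = (L b)⁻¹ * L (t b) := ⟨_, rfl⟩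
  obtain ⟨r, hr⟩ : ∃ r, r = J * l * J := ⟨_, rfl⟩
  rw [← ht]
  obtain ⟨-, -, hlr, hlr', hlT, -⟩ := h.al0.K7_data a b ht hu hl hr
  have hJJ := h.JJ1
  have hlD := fun q => h.al0.K7_line a b q ht hl
  have hrJ : J * r * J = l := by
    rw [hr]
    calc J * (J * l * J) * J = (J * J) * l * (J * J) := by group
      _ = l := by rw [hJJ]; group
  have hconjJ : ∀ f g : Perm Q, J * (f * g) * J = (J * f * J) * (J * g * J) := by
    intro f g
    calc J * (f * g) * J = J * f * 1 * g * J := by group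
      _ = J * f * (J * J) * g * J := by rw [hJJ]
      _ = _ := by group
  have hrD : ∀ q, r * (D L J q * r * D L J q) = (D L J q * r * D L J q) * r := by
    intro q
    have h1 := congrArg (fun f : Perm Q => J * f * J) (hlD (J q))
    have h2 : J * D L J (J q) * J = D L J q := by rw [h.D_J, h.JJ]
    have h3 : J * (D L J (J q) * l * D L J (J q)) * J = D L J q * r * D L J q := by
      rw [hconjJ, hconjJ, h2, ← hr]
    rw [hconjJ l (D L J (J q) * l * D L J (J q)), hconjJ (D L J (J q) * l * D L J (J q)) l, h3,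
      ← hr] at h1
    exact h1
  obtain ⟨P, hP⟩ : ∃ P, P = l * r⁻¹ := ⟨_, rfl⟩
  have hPD : P = D L J u * J := by rw [hP, hlr']; rfl
  have hcom : ∀ q, P * (D L J q * P * D L J q) = (D L J q * P * D L J q) * P := by
    intro q
    have hDD := h.D_sq q
    have hDi : (D L J q)⁻¹ = D L J q := inv_eq_of_mul_eq_one_left hDD
    have hconj : ∀ f g : Perm Q, D L J q * (f * g) * D L J q =
        (D L J q * f * D L J q) * (D L J q * g * D L J q) := by
      intro f g
      calc D L J q * (f * g) * D L J q = D L J q * f * 1 * g * D L J q := by group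
        _ = D L J q * f * (D L J q * D L J q) * g * D L J q := by rw [hDD]
        _ = _ := by group
    have h4 : (D L J q * l * D L J q) * (D L J q * r * D L J q) =
        (D L J q * r * D L J q) * (D L J q * l * D L J q) := by
      rw [← hconj, ← hconj, hlr]
    have h5 : (l * r) * ((D L J q * l * D L J q) * (D L J q * r * D L J q)) =
        ((D L J q * l * D L J q) * (D L J q * r * D L J q)) * (l * r) := by
      rw [← hconj]
      have h6 := h.al0.eta_D a b q (eta := l * r) (by rw [hlT, ht])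
      exact h6
    have h7 := trick hlr (hlD q) (hrD q) h4 h5
    have h8 : D L J q * P * D L J q =
        (D L J q * l * D L J q) * (D L J q * r * D L J q)⁻¹ := by
      rw [hP, hconj]
      congr 1
      rw [mul_inv_rev, mul_inv_rev, hDi]; group
    rw [h8, hP]
    exact h7
  have hPG : P ∈ G := by
    have h1 := h.D_mul_mem u e
    rw [h.D_e, ← hPD] at h1
    exact h1
  obtain ⟨n, hn, hnd⟩ := h.odd_DD hfix u e
  rw [h.D_e, ← hPD] at hnd
  have hP1 : P = 1 := by
    refine h.close hna hPG hn hnd (r := e) ?_ hcom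
    rw [h.D_e, hPD]
    have h1 : (D L J u * J)⁻¹ = J * D L J u := by
      rw [mul_inv_rev, h.Jinv, inv_eq_of_mul_eq_one_left (h.D_sq u)]
    rw [h1]
    calc J * (D L J u * J) * J = J * D L J u * (J * J) := by group
      _ = _ := by rw [hJJ, mul_one]
  have hue : u = e := by
    apply h.D_inj
    rw [h.D_e]
    calc D L J u = D L J u * (J * J) := by rw [hJJ, mul_one]
      _ = P * J := by rw [hPD]; group
      _ = J := by rw [hP1, one_mul]
  rw [hue, eq_comm, Perm.inv_eq_iff_eq, h.Le] at hu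
  exact hu

/-- K7, second half: `th(a, b)` fixes `a` -/
theorem K7' [Finite Q] (h : AL G L J e) (hna : ¬ Assoc L) (hfix : ∀ x, J x = x → x = e)
    (a b : Q) : Th L J a b a = a := by
  have h1 := h.K7 hna hfix (J b) (J a)
  rw [h.al0.Th_inv, Perm.inv_eq_iff_eq] at h1
  have h2 := congrArg (fun f : Perm Q => f a) (h.al0.Th_J a b)
  simp only [Perm.mul_apply] at h2
  rw [← h1] at h2
  exact (J.injective h2).symm

end AL

end ALoop
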